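import Pool.Agent.Q126.SB.Tower
import Pool.Agent.Q126.FD.Fg

/-!
# The Selmer group conjecture at 2 over `k(t)` for almost all quadratic twists of `y² = g(x) + t` and
# for ALL their pull-backs by composites of quadratic polynomials, over infinite finitely generated
# fields of characteristic `≥ 5` and all their extensions of degree prime to `3 m` at once

Let `𝔽` be a finite field of characteristic at least 5 and `k` a field which is generated by finitely
many elements over `𝔽(u)`, `u` transcendental over `𝔽` (every infinite finitely generated field of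
characteristic at least 5 is such a field). Let `g = x³ + b₂ x² + b₁ x + b₀` be a cubic polynomial over
`𝔽[u]`, `b₂² ≠ 3 b₁`, and `m ≥ 2`.

Theorem. Among the polynomials `D` of degree at most `m` in `t` whose coefficients are polynomials in
`u` over `𝔽` of degree less than `n`, the proportion of those for which the following holds tends to
one as `n` tends to infinity:

for all extension fields `k₁` of `k` such that the algebraic closure of `k` in `k₁` is of finite
degree prime to `3 m` over `k` (for example all finite extensions of `k` of degree prime to `3 m`, and the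
fields of rational functions over them), for all constants `d ≠ 0` in `k₁`, and for ALL
composites `h` of quadratic polynomials `a t² + c` over `k₁` such that for every critical value `γ`
of `h` the cubic polynomial `g + γ` is irreducible and separable over `k₁` (there is no condition for
`h = t`), the elliptic curve

`E : d D(h(t)) y² = g(x) + h(t)` over `K = k₁(t)`

satisfies the Selmer group conjecture at 2 (`SelmerAtTwo`): `E(K) ⊗ ℤ₂ → Sel(E, ℤ₂)` is surjective, that is
(as it is always injective) an isomorphism, `T₂ Ш(E) = 0`.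

For example, if `g` is irreducible over `k`, then `h = t^(2^e)` is allowed for all `e`. The curves `E`
are not isotrivial, and for `h = t` as for general `h` the degree of the conductor is unbounded.

The proof. The polynomial `D(-g(x))` of degree `3 m` is irreducible over `k` for almost all `D`: for
infinitely many primes `π(u)` the field `k` has an embedding in the field of power series over
`𝔽[u] / π` (`rich_fg`), and for each of these primes not dividing `b₂² - 3 b₁` at least the proportion
`1 / (24 m)` of the `D` modulo `π` is such that `D(-g(x))` is irreducible modulo `π`. It remains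
irreducible over `k₁`. If `π(t)` is an irreducible factor of `D(h(t))` and `τ` a root of `π`, then the
degree of `k₁(τ)` over `k₁(h(τ))` is a power of two, so `g(x) + h(τ)` has no root in `k₁(τ)`; and
`D(h(t))` is squarefree. By `Pool.Agent.TH115.TC` every class in `V₂ Sel(E / k'(t))`, `k'` a separable
closure of `k₁`, which is fixed by the Galois group of `k₁` comes from `E(K)`. By restriction of cocycles
from `K` to `k'(t)` (`Pool.Agent.Q126.SB`), as there are no points of order two over `k'(t)`, every
element of `Sel(E, ℤ₂)` comes from `E(K)`.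
-/

set_option autoImplicit false

namespace Pool.Agent.Results.MP_1bdb59_nt.AllPullbacksOfTwists

open Polynomial Filter Topology Module
open Pool.Agent.TH115.GD (cb cq crit twC)
open Pool.Agent.Q126.SB (SelmerAtTwo)

/-- `k` is an extension of `𝔽(u)` which is generated by finitely many elements (`u` is the image of
the variable of `𝔽[X]`). -/
def FinitelyGenerated (𝔽 k : Type) [Field 𝔽] [Field k] [Algebra 𝔽[X] k] : Prop :=
  Function.Injective (algebraMap 𝔽[X] k) ∧
    ∃ s : Finset k, Subfield.closure (Set.range (algebraMap 𝔽[X] k) ∪ (s : Set k)) = ⊤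

/-- The polynomials of degree at most `m` in `t` whose coefficients are polynomials of degree less
than `n` in `u`. -/
def polys (𝔽 : Type) [Field 𝔽] (m n : ℕ) : Set 𝔽[X][X] :=
  {f | f.natDegree ≤ m ∧ ∀ i, f.coeff i ∈ degreeLT 𝔽 n}

/-- The degree of the algebraic closure of `k` in `k₁` is finite and prime to `r`. -/
def DegreePrimeTo (k k₁ : Type) [Field k] [Field k₁] [Algebra k k₁] (r : ℕ) : Prop :=
  FiniteDimensional k (algebraicClosure k k₁) ∧ (finrank k (algebraicClosure k k₁)).Coprime r

/-- The composite `h` of the quadratic polynomials `a t² + c`, `(a, c)` in the list `l`, is allowed for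
`g`: all `a ≠ 0`, and for each critical value `γ` of `h` the polynomial `g + γ` is irreducible and
separable. -/
def Admissible {k : Type} [Field k] (g : k[X]) (l : List (k × k)) : Prop :=
  (∀ p ∈ l, p.1 ≠ 0) ∧ ∀ γ ∈ crit l, Irreducible (g + C γ) ∧ (g + C γ).Separable

/-- The set of the polynomials `D` such that for all extension fields `k₁` of `k` in which the
algebraic closure of `k` has a finite degree prime to `3 m`, all `d ≠ 0` in `k₁` and all admissible
composites `h` over `k₁`, the Selmer group conjecture at 2 holds over `k₁(t)` for the curve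
`d D(h(t)) y² = g(x) + h(t)`. -/
def Good (𝔽 k : Type) [Field 𝔽] [Field k] [Algebra 𝔽[X] k] (b₂ b₁ b₀ : 𝔽[X]) (m : ℕ) :
    Set 𝔽[X][X] :=
  {D | ∀ (k₁ K : Type) [Field k₁] [Algebra k k₁] [Field K] [Algebra k₁[X] K]
    [IsFractionRing k₁[X] K], DegreePrimeTo k k₁ (3 * m) → ∀ (φ : 𝔽[X] →+* k₁),
      φ = (algebraMap k k₁).comp (algebraMap 𝔽[X] k) → ∀ d : k₁, d ≠ 0 → ∀ l : List (k₁ × k₁),
        Admissible (cb (φ b₂) (φ b₁) (φ b₀)) l →
          SelmerAtTwo k₁ (twC K (φ b₂) (φ b₁) (φ b₀) (cq l) (C d * (D.map φ).comp (cq l)))}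

/-- **The Selmer group conjecture at 2 for almost all quadratic twists of `y² = g(x) + t` and all
their pull-backs by admissible composites of quadratic polynomials.** -/
theorem result (𝔽 : Type) [Field 𝔽] [Finite 𝔽] (h2 : (2 : 𝔽) ≠ 0) (h3 : (3 : 𝔽) ≠ 0)
    (b₂ b₁ b₀ : 𝔽[X]) (hg : b₂ ^ 2 ≠ 3 * b₁) (m : ℕ) (hm : 2 ≤ m) (k : Type) [Field k]
    [Algebra 𝔽[X] k] (hk : FinitelyGenerated 𝔽 k) :
    Tendsto (fun n : ℕ => ((polys 𝔽 m n ∩ Good 𝔽 k b₂ b₁ b₀ m).ncard : ℝ) /
      (polys 𝔽 m n).ncard) atTop (𝓝 1) := by
  obtain ⟨hinj, s, hs⟩ := hk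
  have hr := Pool.Agent.Q126.FD.rich_fg k hinj s hs
  apply Pool.Agent.Q126.FD.tendsto_polys
  set g : 𝔽[X][X] := X ^ 3 + C b₂ * X ^ 2 + C b₁ * X + C b₀ with hgdef
  have gd : g.natDegree = 3 := by
    rw [hgdef]; compute_degree!
  have gm : g.Monic := by
    rw [hgdef]; monicity!
  have c2 : g.coeff 2 = b₂ := by
    simp only [hgdef, coeff_add, coeff_C_mul, coeff_X_pow, coeff_X, coeff_C]
    norm_num
  have c1 : g.coeff 1 = b₁ := by
    simp only [hgdef, coeff_add, coeff_C_mul, coeff_X_pow, coeff_X, coeff_C]
    norm_num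
  have h1 := Pool.Agent.Q126.FD.comp_full (k := k) hr h2 h3 (N := m) (by omega)
    Pool.Agent.Q126.FD.equi_neg gm gd (by rw [c2, c1]; exact hg)
  have h1' := Pool.Agent.Q126.FD.irr_full (𝔽 := 𝔽) hr (m := m) (by omega)
    (Pool.Agent.Q126.FD.equi_self (n := m))
  refine (h1.inter h1').mono ?_
  rintro v ⟨⟨v1, -⟩, -, vs, vd⟩ k₁ K _ _ _ _ _ ⟨hfin, hco⟩ φ rfl d hd l ⟨hl, hcrit⟩
  set D := (Pool.Agent.Q126.TD.pol v).map (algebraMap 𝔽[X] k) with hD
  have toF : ∀ c : 𝔽, c ≠ 0 → algebraMap k k₁ (algebraMap 𝔽[X] k (C c)) ≠ 0 := by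
    intro c hc
    have : ((algebraMap k k₁).comp ((algebraMap 𝔽[X] k).comp C)) c ≠ 0 :=
      (_root_.map_ne_zero _).2 hc
    exact this
  have k2 : (2 : k₁) ≠ 0 := by
    have := toF 2 h2
    rwa [C_ofNat, map_ofNat, map_ofNat] at this
  have k3 : (3 : k₁) ≠ 0 := by
    have := toF 3 h3
    rwa [C_ofNat, map_ofNat, map_ofNat] at this
  have e1 : g.map (algebraMap 𝔽[X] k) = cb (algebraMap 𝔽[X] k b₂) (algebraMap 𝔽[X] k b₁)
      (algebraMap 𝔽[X] k b₀) := by
    unfold cb
    simp [hgdef]
  have e3 : ((Pool.Agent.Q126.TD.pol v).comp (-X)).map (algebraMap 𝔽[X] k) = D.comp (-X) := by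
    rw [Polynomial.map_comp, Polynomial.map_neg, map_X]
  rw [e1, e3, comp_assoc, neg_comp, X_comp] at v1
  have e4 : (Pool.Agent.Q126.TD.pol v).map ((algebraMap k k₁).comp (algebraMap 𝔽[X] k)) =
      D.map (algebraMap k k₁) := by
    rw [hD, Polynomial.map_map]
  rw [e4]
  exact Pool.Agent.Q126.SB.selmer_ext k2 k3 v1 vs (by rw [vd]; exact hm) hfin
    (by rw [vd]; exact hco) hd hl hcrit

end Pool.Agent.Results.MP_1bdb59_nt.AllPullbacksOfTwists
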