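import Mathlib
import Pool.Agent.Q308.TW.SqS
import Pool.Agent.Q308.TW.TwoK

/-!
# The Selmer group conjecture at 2 for almost all elliptic curves over `k(t)` with full 2-torsion

Let `k` be a number field, or any finitely generated field of characteristic zero, `K = k(t)`, and let
`N ≥ 5` be odd. Let `b i`, `i` in a finite set `κ`, be any polynomials over `k` which span the
polynomials of degree at most `N` (for example `b i = t ^ i`, or, for a number field `k`, the
`ω_j t ^ i` for a basis `ω` of the ring of integers of `k`). A vector `v` of integers indexed by two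
copies of `κ` is a pair `f`, `g` of integer combinations of the `b i`, and gives for each constant
`d ≠ 0` the elliptic curve

  `E_d : y ^ 2 = x (x - d f) (x - d g)`

over `K`, the twist by `d` of `E_1`; every elliptic curve over `K` with rational points of order two is
of this form, for polynomials `f`, `g`.

Theorem. The proportion, among the `v` with `|v i| ≤ B`, of those for which for all `d` in `k`, `d ≠ 0`,
simultaneously

* every class of 2-power order in `H ^ 1 (K, E_d)` which is zero over the completions at all places of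
  `K` (the closed points of the projective line over `k`) is zero: `Sha(E_d / K)[2^∞] = 0`, and so the
  2-adic Tate module of `Sha` is zero,
* `E_d(K) = E_d[2] + 2 E_d(K)`,

tends to one as `B` tends to infinity. (So the map of the conjecture
`E_d(K) ⊗ ℤ_2 → Sel(E_d, ℤ_2)` is an isomorphism and the Mordell-Weil rank is zero.)

Method: the descent by 2 and the second descent (Cassels' pairing) of `Pool.Agent.TH115`, which work
if `f`, `g`, `f - g` are irreducible of degree `N` and no constant multiple of `g` is a square modulo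
`f`. The field `k` can be embedded in `ℚ_p`, with all the coefficients which occur integral, for
infinitely many primes `p` (Cassels), and for each of these primes each condition follows from a
condition modulo `p` which holds for a positive proportion (depending only on `N`) of the pairs modulo
`p`: that `f`, `g`, `f - g` or `f + t g` is irreducible, and, for the last condition, that `f` has two
simple roots `α`, `β` and a factor without roots modulo `p` and `g(α) g(β)` is not a square.
-/

set_option autoImplicit false

open Polynomial Filter Topology WeierstrassCurve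
open scoped Classical

namespace Pool.Agent.Results.MP_1bdb59_nt.AlmostAllFullTwoTorsion

open Pool.Agent.TH115.GD (Pt Sep act rs IsCoc LocallyTrivial)

section sha

variable (k : Type) {K : Type} [Field k] [Field K] [Algebra k[X] K] [IsFractionRing k[X] K]
  (W : WeierstrassCurve K)

/-- The function `f` on the Galois group is a coboundary. -/
def IsZero {K : Type} [Field K] (W : WeierstrassCurve K) (f : (Sep K ≃ₐ[K] Sep K) → Pt W (Sep K)) :
    Prop :=
  ∃ R : Pt W (Sep K), ∀ σ, f σ = act W (rs K σ) R - R

/-- The 2-primary part of the Tate-Shafarevich group of `W` over `K = k(t)` is zero: a continuous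
cocycle of `Gal(Sep K / K)` with values in `W(Sep K)` whose class is killed by a power of two and is
zero over the completions of `K` at all places is a coboundary. -/
def ShaTwo : Prop :=
  ∀ f : (Sep K ≃ₐ[K] Sep K) → Pt W (Sep K), IsCoc W f → LocallyTrivial k W f →
    ∀ n : ℕ, IsZero W (fun σ => 2 ^ n • f σ) → IsZero W f

/-- The 2-adic Tate module of the Tate-Shafarevich group of `W` over `K = k(t)` is zero: if `c n` are
classes in this group with `2 ^ n c n = 0` and `2 c (n + 1) = c n` then they are zero. -/
def ShaTate : Prop :=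
  ∀ c : ℕ → (Sep K ≃ₐ[K] Sep K) → Pt W (Sep K), (∀ n, IsCoc W (c n)) →
    (∀ n, LocallyTrivial k W (c n)) → (∀ n, IsZero W (fun σ => 2 ^ n • c n σ)) →
    (∀ n, IsZero W (fun σ => 2 • c (n + 1) σ - c n σ)) → ∀ n, IsZero W (c n)

/-- Every point of `W` over `K` is the sum of a point of order dividing two and a double point. -/
def OnlyTwoTorsion {K : Type} [Field K] (W : WeierstrassCurve K) : Prop :=
  ∀ P : Pt W K, ∃ T Q : Pt W K, T + T = 0 ∧ P = T + (Q + Q)

end sha

section defs

variable {k : Type} [Field k] {κ : Type} [Fintype κ]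

/-- The polynomials `b i` have degree at most `N` and span the polynomials of degree at most `N`. -/
def Spans (N : ℕ) (b : κ → k[X]) : Prop :=
  (∀ i, (b i).natDegree ≤ N) ∧ ∀ j : Fin (N + 1), ∃ c : κ → k, ∑ i, C (c i) * b i = X ^ (j : ℕ)

/-- The integer combination of the `b i` with the coefficients `v i`. -/
noncomputable def comb (b : κ → k[X]) (v : κ → ℤ) : k[X] := ∑ i, C ((v i : ℤ) : k) * b i

/-- The integer vectors with coordinates of absolute value at most `B`. -/
def Box (κ : Type) (B : ℕ) : Set (κ → ℤ) := {v | ∀ i, |v i| ≤ B}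

/-- The property `S` holds for a proportion of the vectors in the boxes which tends to one. -/
def AlmostAll (S : Set (κ → ℤ)) : Prop :=
  Tendsto (fun B : ℕ => ((Box κ B ∩ S).ncard : ℝ) / (Box κ B).ncard) atTop (𝓝 1)

/-- The first polynomial given by the vector `v`. -/
noncomputable def first (b : κ → k[X]) (v : κ ⊕ κ → ℤ) : k[X] := comb b fun i => v (Sum.inl i)

/-- The second polynomial given by the vector `v`. -/
noncomputable def second (b : κ → k[X]) (v : κ ⊕ κ → ℤ) : k[X] := comb b fun i => v (Sum.inr i)

/-- The curve `y ^ 2 = x (x - f) (x - g)` over `k(t)`. -/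
noncomputable def E (f g : k[X]) : WeierstrassCurve (RatFunc k) :=
  ⟨0, -(algebraMap k[X] (RatFunc k) f + algebraMap k[X] (RatFunc k) g), 0,
    algebraMap k[X] (RatFunc k) f * algebraMap k[X] (RatFunc k) g, 0⟩

/-- The vectors `v` for which the polynomials `f`, `g` and `f - g` have degree `N` and all the curves
`y ^ 2 = x (x - d f) (x - d g)` over `k(t)`, `d` in `k`, `d ≠ 0`, are elliptic curves with a trivial
2-primary part of `Sha`, a trivial 2-adic Tate module of `Sha` and without points apart from the points
of order two and double points. -/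
def Good (N : ℕ) (b : κ → k[X]) : Set (κ ⊕ κ → ℤ) :=
  {v | (first b v).natDegree = N ∧ (second b v).natDegree = N ∧
    (first b v - second b v).natDegree = N ∧ ∀ d : k, d ≠ 0 →
      (E (C d * first b v) (C d * second b v)).Δ ≠ 0 ∧
      ShaTwo k (E (C d * first b v) (C d * second b v)) ∧
      ShaTate k (E (C d * first b v) (C d * second b v)) ∧
      OnlyTwoTorsion (E (C d * first b v) (C d * second b v))}

end defs

theorem ShaTwo.tate {k K : Type} [Field k] [Field K] [Algebra k[X] K] [IsFractionRing k[X] K]
    {W : WeierstrassCurve K} (h : ShaTwo k W) : ShaTate k W :=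
  fun c h1 h2 h3 _ n => h (c n) (h1 n) (h2 n) n (h3 n)

theorem disc {k : Type} [Field k] [CharZero k] {f g : k[X]} (hf : f ≠ 0) (hg : g ≠ 0)
    (hfg : f - g ≠ 0) : (E f g).Δ ≠ 0 := by
  have inj := IsFractionRing.injective k[X] (RatFunc k)
  have h2 : (2 : RatFunc k) ≠ 0 := by
    intro h
    have h1 : (2 : k[X]) = 0 := by
      apply inj
      rw [map_zero, ← h]
      exact map_ofNat _ 2
    have h3 : ((2 : k) : k) = 0 := by
      have := congrArg (Polynomial.eval (0 : k)) h1
      simpa using this
    exact two_ne_zero h3
  have e : (E f g).Δ = 2 ^ 4 * algebraMap k[X] (RatFunc k) (f * g * (f - g)) ^ 2 := by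
    simp only [E, WeierstrassCurve.Δ, WeierstrassCurve.b₂, WeierstrassCurve.b₄, WeierstrassCurve.b₆,
      WeierstrassCurve.b₈, map_mul, map_sub]
    ring
  rw [e]
  refine mul_ne_zero (pow_ne_zero _ h2) (pow_ne_zero _ ?_)
  rw [Ne, map_eq_zero_iff _ inj]
  exact mul_ne_zero (mul_ne_zero hf hg) hfg

/-- **The Selmer group conjecture at 2 for 100 percent of the elliptic curves with full 2-torsion.** -/
theorem result {k : Type} [Field k] [CharZero k]
    (hk : ∃ s : Finset k, Subfield.closure (s : Set k) = ⊤) {N : ℕ} (hN : Odd N) (h5 : 5 ≤ N)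
    {κ : Type} [Fintype κ] {b : κ → k[X]} (hb : Spans N b) : AlmostAll (Good N b) := by
  classical
  have h0 : 0 < N := by omega
  have f1 := Pool.Agent.Q308.TC.form_full hk h0 hb (u := 1) (w := 0) (Or.inl one_ne_zero)
  have f2 := Pool.Agent.Q308.TC.form_full hk h0 hb (u := 0) (w := 1) (Or.inr one_ne_zero)
  have f3 := Pool.Agent.Q308.TC.form_full hk h0 hb (u := 1) (w := -1) (Or.inl one_ne_zero)
  have f4 := Pool.Agent.Q308.TC.coprime_full hk h0 hb
  have f5 := Pool.Agent.Q308.TW.sq_span hk (by omega : 4 ≤ N) hb
  have h3 : Pool.Agent.Q126.TD.Full (Good N b) := by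
    refine ((f1.inter f2).inter ((f3.inter f4).inter f5)).mono ?_
    rintro v ⟨⟨⟨a1, a2⟩, b1, b2⟩, ⟨⟨c1, c2⟩, d1⟩, e1⟩
    simp only [C_1, C_0, one_mul, zero_mul, add_zero, zero_add] at a1 a2 b1 b2
    have e : C (1 : k) * Pool.Agent.Q308.TC.comb b (Pool.Agent.Q308.TC.left v) +
        C (-1) * Pool.Agent.Q308.TC.comb b (Pool.Agent.Q308.TC.right v) =
        first b v - second b v := by
      rw [C_neg, C_1, one_mul, neg_one_mul, ← sub_eq_add_neg]
      rfl
    rw [e] at c1 c2
    refine ⟨a2, b2, c2, fun d hd => ?_⟩
    have hu : IsUnit (C d : k[X]) := isUnit_C.2 (isUnit_iff_ne_zero.2 hd)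
    have hCd : (C d : k[X]) ≠ 0 := C_ne_zero.2 hd
    obtain ⟨g1, g2⟩ := Pool.Agent.TH115.GD.Q308.generic_twists (K := RatFunc k)
      (two_ne_zero : (2 : k) ≠ 0) a1 b1 c1 d1 hN a2 b2 c2 e1 hd
    have g1' : ShaTwo k (E (C d * first b v) (C d * second b v)) := by
      intro f hf hl n hn
      exact g1 f hf hl ⟨n, hn⟩
    refine ⟨disc (mul_ne_zero hCd a1.ne_zero) (mul_ne_zero hCd b1.ne_zero) ?_, g1', g1'.tate, g2⟩
    rw [← mul_sub]
    exact mul_ne_zero hCd c1.ne_zero
  refine h3.congr fun B => ?_
  have h5 : ((Box (κ ⊕ κ) B).ncard : ℝ) = (2 * B + 1 : ℝ) ^ Fintype.card (κ ⊕ κ) := by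
    have : (Box (κ ⊕ κ) B).ncard = (2 * B + 1) ^ Fintype.card (κ ⊕ κ) :=
      Pool.Agent.Q126.TD.box_ncard (κ := κ ⊕ κ) B
    rw [this]
    push_cast
    rfl
  rw [h5]
  rfl

end Pool.Agent.Results.MP_1bdb59_nt.AlmostAllFullTwoTorsion
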