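import Mathlib
import Pool.Agent.Q308.TW.Stm
import Pool.Agent.Y713.SE.Pull
import Pool.Agent.Q308.TC.Span

/-!
# The Selmer group conjecture at `ℓ` for almost all curves `y ^ ℓ = h(x) (x - g(t))`

Let `k` be a number field, or any finitely generated field of characteristic zero, which contains the
roots of unity of order `ℓ`, `ℓ` any prime, and `K = k(t)`. Let `h` be a separable polynomial over `k` of
degree at least two with all roots in `k`, where `ℓ` does not divide `deg h + 1`. For a polynomial `g`
over `k` let `J_g` be the Jacobian of the curve `y ^ ℓ = h(x) (x - g(t))` over `K`: for example, for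
`ℓ = 2` and `h = x (x - 1)`, the pull-backs of the Legendre elliptic curve.

Let `N` be prime to `ℓ`, and let `b i`, `i` in a finite set `κ`, be any polynomials over `k` which span
the polynomials of degree at most `N` (for example `b i = t ^ i`, or, for a number field `k`, the
`ω_j t ^ i` for a basis `ω` of the ring of integers of `k`).

Theorem. Among the integer combinations `g = ∑ v i • b i` with `|v i| ≤ B`, the proportion of those for
which `g` has degree `N`, every class of `ℓ`-power order in `H ^ 1 (K, J_g)` which is zero over the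
completions at all closed points of the affine line is zero, and the `ℓ`-adic Tate module of the group
of the classes which are zero over all these completions is zero, tends to one as `B` tends to
infinity.

Method: the descent by `1 - σ` (`Pool.Agent.Y713.SE`) works if all the polynomials `g - c`, `c` a root
of `h`, are irreducible. The field `k` can be embedded in `ℚ_p`, with all the roots of `h` and all the
coefficients which occur integral, for infinitely many primes `p` (Cassels), and for each of these
primes a positive proportion (depending only on `N`) of the `g` is such that `g - c` is irreducible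
modulo `p`.
-/

set_option autoImplicit false
set_option linter.all false

open Polynomial IsDedekindDomain Filter Topology

namespace Pool.Agent.Results.MP_1bdb59_nt.AlmostAllPencils

open Pool.Agent.Q308.Sel (ShaPrimary ShaTate)

section defs

variable {k : Type} [Field k] {κ : Type} [Fintype κ]

/-- The polynomials `b i` have degree at most `N` and span the polynomials of degree at most `N`. -/
def Spans (N : ℕ) (b : κ → k[X]) : Prop :=
  (∀ i, (b i).natDegree ≤ N) ∧ ∀ j : Fin (N + 1), ∃ c : κ → k, ∑ i, C (c i) * b i = X ^ (j : ℕ)

/-- The integer combination of the `b i` with the coefficients `v i`. -/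
noncomputable def comb (b : κ → k[X]) (v : κ → ℤ) : k[X] := ∑ i, C ((v i : ℤ) : k) * b i

/-- The integer vectors with coordinates of absolute value at most `B`. -/
def Box (κ : Type) (B : ℕ) : Set (κ → ℤ) := {v | ∀ i, |v i| ≤ B}

/-- The property `S` holds for a proportion of the vectors in the boxes which tends to one. -/
def AlmostAll (S : Set (κ → ℤ)) : Prop :=
  Tendsto (fun B : ℕ => ((Box κ B ∩ S).ncard : ℝ) / (Box κ B).ncard) atTop (𝓝 1)

/-- The polynomial `h(x)` over `k(t)`. -/
noncomputable def const (h : k[X]) : (RatFunc k)[X] := h.map (algebraMap k (RatFunc k))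

/-- The polynomial `x - g(t)`. -/
noncomputable def moving (g : k[X]) : (RatFunc k)[X] := X - C (algebraMap k[X] (RatFunc k) g)

/-- The polynomial `h(x) (x - g(t))`. -/
noncomputable def pencil (h g : k[X]) : (RatFunc k)[X] := const h * moving g

/-- The vectors `v` for which `g = ∑ v i • b i` has degree `N` and the Jacobian of
`y ^ ℓ = h(x) (x - g(t))` has a trivial `ℓ`-primary part of the Tate-Shafarevich group and a trivial
`ℓ`-adic Tate module of this group. -/
def Good (ℓ N : ℕ) (h : k[X]) (b : κ → k[X]) : Set (κ → ℤ) :=
  {v | (comb b v).natDegree = N ∧ ShaPrimary ℓ (pencil h (comb b v)) k[X] ∧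
    ShaTate ℓ (pencil h (comb b v)) k[X]}

/-- `h` is separable of degree at least two, with all roots in `k`, and `ℓ` does not divide
`deg h + 1`. -/
def Admissible (ℓ : ℕ) (h : k[X]) : Prop :=
  h.Splits ∧ h.Separable ∧ 2 ≤ h.natDegree ∧ ¬ ℓ ∣ h.natDegree + 1

end defs

theorem pencil_eq {k : Type} [Field k] (h g : k[X]) :
    pencil h g = Pool.Agent.Y713.SE.pencil (RatFunc k) h g := by
  unfold pencil const moving Pool.Agent.Y713.SE.pencil
  congr 2

/-- **The Selmer group conjecture at `ℓ` for 100 percent of the pencils.** -/
theorem result {k : Type} [Field k] [CharZero k]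
    (hk : ∃ s : Finset k, Subfield.closure (s : Set k) = ⊤) {ℓ : ℕ} (hℓ : ℓ.Prime) {ζ : k}
    (hζ : IsPrimitiveRoot ζ ℓ) {h : k[X]} (hh : Admissible ℓ h) {N : ℕ} (hN : ¬ ℓ ∣ N) {κ : Type}
    [Fintype κ] {b : κ → k[X]} (hb : Spans N b) : AlmostAll (Good ℓ N h b) := by
  classical
  obtain ⟨hs, hsep, h2, hn⟩ := hh
  have hk0 : (ℓ : k) ≠ 0 := by exact_mod_cast hℓ.ne_zero
  have hN0 : 0 < N := Nat.pos_of_ne_zero (by rintro rfl; exact hN (dvd_zero ℓ))
  have h0 : ∀ c ∈ h.roots.toFinset, Pool.Agent.Q126.TD.Full {v : κ → ℤ |
      Irreducible ((X - C c).comp (Pool.Agent.Q308.TC.comb b v)) ∧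
      (Pool.Agent.Q308.TC.comb b v).natDegree = N} := by
    intro c _
    exact Pool.Agent.Q308.TC.span_full hk hN0 hb (irreducible_X_sub_C c)
  have h1 := Pool.Agent.Q308.TC.full_biInter h.roots.toFinset _ h0
  have h2' := Pool.Agent.Q308.TC.span_full hk hN0 hb (irreducible_X (R := k))
  have h3 : Pool.Agent.Q126.TD.Full (Good ℓ N h b) := by
    refine (h1.inter h2').mono ?_
    rintro v ⟨hv, -, hd⟩
    have hd' : (comb b v).natDegree = N := hd
    have hirr : ∀ c, h.IsRoot c → Irreducible (comb b v - C c) := by
      intro c hc
      have h4 := (hv c (Multiset.mem_toFinset.2 ((mem_roots hsep.ne_zero).2 hc))).1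
      rw [sub_comp, X_comp, C_comp] at h4
      exact h4
    have h5 := Pool.Agent.Y713.SE.pencil_primary (RatFunc k) hℓ hk0 hζ hs hsep h2 hn
      (g := comb b v) (by rw [hd']; exact hN) hirr
    rw [← pencil_eq] at h5
    exact ⟨hd', Pool.Agent.Q308.Sel.ShaPrimary.of h5, (Pool.Agent.Q308.Sel.ShaPrimary.of h5).tate⟩
  refine h3.congr fun B => ?_
  have h5 : ((Box κ B).ncard : ℝ) = (2 * B + 1 : ℝ) ^ Fintype.card κ := by
    have : (Box κ B).ncard = (2 * B + 1) ^ Fintype.card κ :=
      Pool.Agent.Q126.TD.box_ncard (κ := κ) B
    rw [this]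
    push_cast
    rfl
  rw [h5]
  rfl

end Pool.Agent.Results.MP_1bdb59_nt.AlmostAllPencils
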