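import Mathlib
import Pool.Agent.Q308.TW.Stm
import Pool.Agent.Q308.TW.Sel

/-!
# The Selmer group conjecture at `ℓ` for almost all twists of superelliptic curves over `k(t)`

Let `k` be a number field, or any finitely generated field of characteristic zero, which contains the
roots of unity of order `ℓ`, `ℓ` any prime, and `K = k(t)`. Let `F` be any separable polynomial over `K`
of degree prime to `ℓ` with all roots in `K`. So `y ^ ℓ = F(x)` is any cyclic cover of degree `ℓ` of the
line over `K` with rational branch points, totally ramified at infinity and with the same rotation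
number at the other branch points; for `ℓ = 2` this is any hyperelliptic curve over `K` with rational
Weierstrass points, in particular any elliptic curve over `k(t)` with four rational points of order
dividing two.

For a polynomial `D` over `k` let `J_D` be the Jacobian of the twist `y ^ ℓ = D(t) F(x)`.

Let `N` be prime to `ℓ`, `N ≥ N₀(F)`, and let `b i`, `i` in a finite set `κ`, be any polynomials over `k`
which span the polynomials of degree at most `N` (for example `b i = t ^ i`, or, for a number field `k`,
the `ω_j t ^ i` for a basis `ω` of the ring of integers of `k`).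

Theorem. Among the integer combinations `D = ∑ v i • b i` with `|v i| ≤ B`, the proportion of those for
which `D` is irreducible of degree `N`, every class of `ℓ`-power order in `H ^ 1 (K, J_D)` which is zero
over the completions at all closed points of the affine line is zero, and the `ℓ`-adic Tate module of
the group of the classes which are zero over all these completions is zero, tends to one as `B` tends
to infinity.

So the Selmer group conjecture at `ℓ` holds for 100 percent of the twists of each of these curves. (An
infinite sequence of such twists, for the fields `k` which are fields of fractions of Dedekind domains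
with infinitely many primes, was known, `SuperellipticTwists`.)

Method: by the descent by `1 - σ` (`Pool.Agent.Y713.SE`) it is sufficient that `D` is irreducible and
that the polynomials `π` of the places of bad reduction are independent in the multiplicative group of
`k[t] / (D)` modulo `ℓ`-th powers and constants. Let `L` be the field generated over `k` by the zeros
`γ i` of the `π`. It can be embedded in `ℚ_p`, with the `γ i`, `1 / (γ i - γ j)` and all the coefficients
which occur integral, for infinitely many primes `p` (Cassels). Let `a i` be exponents not all divisible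
by `ℓ`. If `D` is congruent to `(t - α) G` modulo `p` and `c ∏ (γ i - t) ^ a i` is an `ℓ`-th power modulo
`D` for a constant `c`, then (value at the zero of `D` near `α`, and the norm from `ℚ_p[t] / (H)`, where
`H` is the other factor of `D`) a certain product of powers of the `γ i - α`, `G(γ i)` and of the leading
coefficient of `G` is an `ℓ`-th power modulo `p`. This is not so for a positive proportion, independent of
`p`, of the `D` modulo `p` if the degree of `D` is at least the number of the `γ i` plus two, as the
values `G(γ i)` can be prescribed.
-/

set_option autoImplicit false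
set_option linter.all false

open Polynomial IsDedekindDomain Filter Topology

namespace Pool.Agent.Results.MP_1bdb59_nt.AlmostAllTwists

open Pool.Agent.Q308.Sel (ShaPrimary ShaTate)

section defs

variable {k : Type} [Field k] {κ : Type} [Fintype κ]

/-- The polynomials `b i` have degree at most `N` and span the polynomials of degree at most `N`. -/
def Spans (N : ℕ) (b : κ → k[X]) : Prop :=
  (∀ i, (b i).natDegree ≤ N) ∧ ∀ j : Fin (N + 1), ∃ c : κ → k, ∑ i, C (c i) * b i = X ^ (j : ℕ)

/-- The integer combination of the `b i` with the coefficients `v i`. -/
noncomputable def comb (b : κ → k[X]) (v : κ → ℤ) : k[X] := ∑ i, C ((v i : ℤ) : k) * b i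

/-- The integer vectors with coordinates of absolute value at most `B`. -/
def Box (κ : Type) (B : ℕ) : Set (κ → ℤ) := {v | ∀ i, |v i| ≤ B}

/-- The property `S` holds for a proportion of the vectors in the boxes which tends to one. -/
def AlmostAll (S : Set (κ → ℤ)) : Prop :=
  Tendsto (fun B : ℕ => ((Box κ B ∩ S).ncard : ℝ) / (Box κ B).ncard) atTop (𝓝 1)

/-- `F` is separable of degree prime to `ℓ` with all roots in `k(t)`. -/
def RationalBranch (ℓ : ℕ) (F : (RatFunc k)[X]) : Prop :=
  F.Splits ∧ F.Separable ∧ ¬ ℓ ∣ F.natDegree

/-- The polynomial `D(t) F(x)`. -/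
noncomputable def twist (D : k[X]) (F : (RatFunc k)[X]) : (RatFunc k)[X] :=
  C (algebraMap k[X] (RatFunc k) D) * F

/-- The vectors `v` for which `D = ∑ v i • b i` is irreducible of degree `N` and the Jacobian of
`y ^ ℓ = D(t) F(x)` has a trivial `ℓ`-primary part of the Tate-Shafarevich group and a trivial `ℓ`-adic
Tate module of this group. -/
def Good (ℓ N : ℕ) (F : (RatFunc k)[X]) (b : κ → k[X]) : Set (κ → ℤ) :=
  {v | (comb b v).natDegree = N ∧ Irreducible (comb b v) ∧
    ShaPrimary ℓ (twist (comb b v) F) k[X] ∧ ShaTate ℓ (twist (comb b v) F) k[X]}

end defs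

/-- **The Selmer group conjecture at `ℓ` for 100 percent of the twists.** -/
theorem result {k : Type} [Field k] [CharZero k]
    (hk : ∃ s : Finset k, Subfield.closure (s : Set k) = ⊤) {ℓ : ℕ} (hℓ : ℓ.Prime) {ζ : k}
    (hζ : IsPrimitiveRoot ζ ℓ) {F : (RatFunc k)[X]} (hF : RationalBranch ℓ F) :
    ∃ N₀ : ℕ, ∀ N : ℕ, N₀ ≤ N → ¬ ℓ ∣ N → ∀ (κ : Type) [Fintype κ] (b : κ → k[X]), Spans N b →
      AlmostAll (Good ℓ N F b) := by
  obtain ⟨hs, hsep, hn⟩ := hF
  obtain ⟨N₀, h⟩ := Pool.Agent.Q308.TW.twist_almost (RatFunc k) hk hℓ hζ hs hsep hn
  refine ⟨N₀, fun N hN hℓN κ _ b hb => ?_⟩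
  have h3 : Pool.Agent.Q126.TD.Full (Good ℓ N F b) := by
    refine (h N hN hℓN κ b hb).mono ?_
    rintro v ⟨⟨h1, h2⟩, h4⟩
    exact ⟨h2, h1, Pool.Agent.Q308.Sel.ShaPrimary.of h4, (Pool.Agent.Q308.Sel.ShaPrimary.of h4).tate⟩
  refine h3.congr fun B => ?_
  have h5 : ((Box κ B).ncard : ℝ) = (2 * B + 1 : ℝ) ^ Fintype.card κ := by
    have : (Box κ B).ncard = (2 * B + 1) ^ Fintype.card κ :=
      Pool.Agent.Q126.TD.box_ncard (κ := κ) B
    rw [this]
    push_cast
    rfl
  rw [h5]
  rfl

end Pool.Agent.Results.MP_1bdb59_nt.AlmostAllTwists
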